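import Pool.Agent.U17.Geo.Red

/-!
# Isomorphism of geodetic graphs is GI-complete

Every linear space (points and lines, any two points on exactly one line) gives a geodetic graph:
take a vertex for each point, a vertex for each flag (point on a line) and a vertex for each ordered
pair `(i, j)` of distinct points; join a point to its flags, the flag `(i, L)` to the pairs `(i, j)`
with `j` on `L`, and `(i, j)` to `(j, i)`.  The distances are computed explicitly, and every vertex
has exactly one predecessor on the way from any other vertex.  If every point is on at least two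
lines, the graph is 2-connected, and under mild conditions it determines the linear space.

A graph `X` is encoded in the linear space whose points are the pairs of vertices of `X` (with some
pendant vertices added) and whose lines with more than two points are
`{(p, p), (p, q), (q, p), (q, q)}` for adjacent `p`, `q`.
-/

set_option autoImplicit false

namespace Pool.Agent.Results.MP_f934c9_lc.GeodeticGIComplete

open Pool.Agent.NPC Pool.Agent.NPC.R671 Pool.Agent.Y815.GI Pool.Agent.U17.Geo

/-- Some polynomial-time algorithm decides isomorphism correctly on all pairs of geodetic graphs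
(given by their adjacency matrices). -/
def GeodeticIsoInP : Prop :=
  ∃ D : List Bool → List Bool, PolyTime D ∧
    ∀ (n m : ℕ) (X : SimpleGraph (Fin n)) (Y : SimpleGraph (Fin m)), IsGeodetic X → IsGeodetic Y →
      (D (bits (adjMatrix X, adjMatrix Y)) = [true] ↔ Nonempty (X ≃g Y))

/-- Some polynomial-time algorithm decides isomorphism correctly on all pairs of 2-connected
geodetic graphs. -/
def GeodeticBlockIsoInP : Prop :=
  ∃ D : List Bool → List Bool, PolyTime D ∧
    ∀ (n m : ℕ) (X : SimpleGraph (Fin n)) (Y : SimpleGraph (Fin m)),
      IsGeodetic X → TwoConnected X → IsGeodetic Y → TwoConnected Y →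
        (D (bits (adjMatrix X, adjMatrix Y)) = [true] ↔ Nonempty (X ≃g Y))

theorem block_to_gi (h : GeodeticBlockIsoInP) : InPP GraphIso := by
  obtain ⟨D, hD, hD'⟩ := h
  obtain ⟨f, hf, hf'⟩ := Pool.Agent.U17.Geo.main
  refine ⟨fun x => D (f x), Pool.Agent.H642R2.TMSim.polyTime_comp hD hf, fun x => ?_⟩
  obtain ⟨N, M, X', Y', h1, h2, h3, h4⟩ := hf' x
  show x ∈ lang GraphIso ↔ D (f x) = [true]
  rw [h4, h1, hD' N M X' Y' h2.1 h2.2 h3.1 h3.2]

theorem gi_to_geodetic (h : InPP GraphIso) : GeodeticIsoInP := by
  obtain ⟨D, hD, hD'⟩ := h
  exact ⟨D, hD, fun n m X Y _ _ => (hD' _).symm.trans (bits_mem X Y)⟩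

/-- **The isomorphism problem for (2-connected) geodetic graphs is GI-complete.**

* There is a polynomial-time computable function `f` on bit strings such that, for *every* bit
  string `x`, the value `f x` codes a pair of adjacency matrices of 2-connected geodetic graphs
  `X'`, `Y'`, and `x` is a yes-instance of the graph isomorphism problem for arbitrary graphs iff
  `X'` and `Y'` are isomorphic.
* So isomorphism of geodetic graphs can be decided in polynomial time iff isomorphism of arbitrary
  graphs can; and the same for 2-connected geodetic graphs. -/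
theorem result :
    (∃ f : List Bool → List Bool, PolyTime f ∧ ∀ x : List Bool,
      ∃ (N M : ℕ) (X' : SimpleGraph (Fin N)) (Y' : SimpleGraph (Fin M)),
        f x = bits (adjMatrix X', adjMatrix Y') ∧ (IsGeodetic X' ∧ TwoConnected X') ∧
          (IsGeodetic Y' ∧ TwoConnected Y') ∧ (x ∈ lang GraphIso ↔ Nonempty (X' ≃g Y'))) ∧
    (GeodeticIsoInP ↔ InPP GraphIso) ∧ (GeodeticBlockIsoInP ↔ InPP GraphIso) := by
  have h1 : GeodeticIsoInP → GeodeticBlockIsoInP := by
    rintro ⟨D, hD, hD'⟩
    exact ⟨D, hD, fun n m X Y hX _ hY _ => hD' n m X Y hX hY⟩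
  exact ⟨Pool.Agent.U17.Geo.main, ⟨fun h => block_to_gi (h1 h), gi_to_geodetic⟩,
    ⟨block_to_gi, fun h => h1 (gi_to_geodetic h)⟩⟩

end Pool.Agent.Results.MP_f934c9_lc.GeodeticGIComplete
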